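import Mathlib

set_option autoImplicit false

/-! # P1: coefficient field in equal characteristic `p`, perfect residue field -/

open IsLocalRing

namespace Pool.Agent.Lib.MP_682396_ag

/-- P1. Coefficient field, equal characteristic `p`, perfect residue field. -/
theorem exists_section_charP {R : Type*} [CommRing R] [IsLocalRing R]
    [IsAdicComplete (maximalIdeal R) R] (p : ℕ) [Fact p.Prime] [CharP R p]
    [PerfectRing (ResidueField R) p] :
    ∃ σ : ResidueField R →+* R, ∀ x, residue R (σ x) = x := by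
  have hp : p.Prime := Fact.out
  have hpk : ((p : ℕ) : ResidueField R) = 0 := by
    have h := congrArg (residue R) (CharP.cast_eq_zero R p)
    rwa [map_natCast, map_zero] at h
  have hck : CharP (ResidueField R) p := (CharP.charP_iff_prime_eq_zero hp).2 hpk
  let φ : (n : ℕ) → R →+* R ⧸ (maximalIdeal R) ^ n := fun n =>
    (Ideal.Quotient.mk ((maximalIdeal R) ^ n)).comp (iterateFrobenius R p n)
  have hφ : ∀ n r, φ n r = Ideal.Quotient.mk ((maximalIdeal R) ^ n) (r ^ p ^ n) := fun n r => rfl
  have hφ0 : ∀ n, ∀ a : R, a ∈ maximalIdeal R → φ n a = 0 := by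
    intro n a ha
    rw [hφ, Ideal.Quotient.eq_zero_iff_mem]
    exact Ideal.pow_le_pow_right (Nat.lt_pow_self hp.one_lt).le (Ideal.pow_mem_pow ha _)
  let ψ : (n : ℕ) → ResidueField R →+* R ⧸ (maximalIdeal R) ^ n := fun n =>
    Ideal.Quotient.lift (maximalIdeal R) (φ n) (hφ0 n)
  have hψ : ∀ n r, ψ n (residue R r) = φ n r := fun n r => rfl
  let f : (n : ℕ) → ResidueField R →+* R ⧸ (maximalIdeal R) ^ n := fun n =>
    (ψ n).comp ((iterateFrobeniusEquiv (ResidueField R) p n).symm : ResidueField R →+* ResidueField R)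
  have hf0 : ∀ n r, f n ((residue R r) ^ p ^ n) =
      Ideal.Quotient.mk ((maximalIdeal R) ^ n) (r ^ p ^ n) := by
    intro n r
    have h1 : (iterateFrobeniusEquiv (ResidueField R) p n).symm ((residue R r) ^ p ^ n) =
        residue R r := by
      rw [← iterateFrobeniusEquiv_def, RingEquiv.symm_apply_apply]
    show ψ n ((iterateFrobeniusEquiv (ResidueField R) p n).symm ((residue R r) ^ p ^ n)) = _
    rw [h1, hψ, hφ]
  have hex : ∀ (n : ℕ) (x : ResidueField R), ∃ r : R, x = (residue R r) ^ p ^ n := by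
    intro n x
    obtain ⟨r, hr⟩ := residue_surjective ((iterateFrobeniusEquiv (ResidueField R) p n).symm x)
    refine ⟨r, ?_⟩
    rw [hr, ← iterateFrobeniusEquiv_def, RingEquiv.apply_symm_apply]
  have hf : ∀ {m n : ℕ} (hle : m ≤ n),
      (Ideal.Quotient.factorPow (maximalIdeal R) hle).comp (f n) = f m := by
    intro m n hle
    ext x
    obtain ⟨r, rfl⟩ := hex n x
    have h2 : (residue R r) ^ p ^ n = (residue R (r ^ p ^ (n - m))) ^ p ^ m := by
      rw [map_pow, ← pow_mul, ← pow_add, Nat.sub_add_cancel hle]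
    rw [RingHom.comp_apply, hf0, h2, hf0, ← pow_mul, ← pow_add, Nat.sub_add_cancel hle]
    rfl
  refine ⟨IsAdicComplete.liftRingHom (maximalIdeal R) f hf, ?_⟩
  intro x
  have h3 := IsAdicComplete.mk_liftRingHom (maximalIdeal R) f hf 1 x
  obtain ⟨r, hr⟩ := hex 1 x
  have h4 : f 1 x = Ideal.Quotient.mk ((maximalIdeal R) ^ 1) (r ^ p ^ 1) := by
    rw [hr, hf0]
  rw [h4, Ideal.Quotient.eq, pow_one] at h3
  have h5 : residue R (IsAdicComplete.liftRingHom (maximalIdeal R) f hf x) =
      residue R (r ^ p ^ 1) := by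
    rw [← sub_eq_zero, ← map_sub]
    exact (residue_eq_zero_iff _).2 h3
  rw [h5, map_pow, ← hr]

end Pool.Agent.Lib.MP_682396_ag
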