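import Mathlib

set_option autoImplicit false

/-! # P2: a finite extension generated by the base and by the `p`-th powers is separable -/

namespace Pool.Agent.Lib.MP_682396_ag

/-- P2. A finite extension generated by the base and by the `p`-th powers is separable. -/
theorem isSeparable_of_closure {F L : Type*} [Field F] [Field L] [Algebra F L]
    [FiniteDimensional F L] (p : ℕ) [Fact p.Prime] [CharP L p]
    (h : Subring.closure (Set.range (fun x : L => x ^ p) ∪ Set.range (algebraMap F L)) = ⊤) :
    Algebra.IsSeparable F L := by
  have hD : ∀ x : L, KaehlerDifferential.D F L x = 0 := by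
    intro x
    have hx : x ∈ Subring.closure (Set.range (fun x : L => x ^ p) ∪ Set.range (algebraMap F L)) := by
      rw [h]; trivial
    induction hx using Subring.closure_induction with
    | mem x hx =>
      rcases hx with ⟨y, rfl⟩ | ⟨y, rfl⟩
      · simp only [Derivation.leibniz_pow]
        have : (p : L) = 0 := CharP.cast_eq_zero L p
        rw [← Nat.cast_smul_eq_nsmul L, this, zero_smul]
      · exact Derivation.map_algebraMap _ _
    | zero => exact map_zero _
    | one => exact Derivation.map_one_eq_zero _
    | add x y _ _ hx hy => rw [map_add, hx, hy, add_zero]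
    | neg x _ hx => rw [map_neg, hx, neg_zero]
    | mul x y _ _ hx hy => rw [Derivation.leibniz, hx, hy, smul_zero, smul_zero, add_zero]
  have hsub : Subsingleton (Ω[L⁄F]) := by
    rw [← Submodule.subsingleton_iff L]
    refine subsingleton_of_bot_eq_top ?_
    rw [← KaehlerDifferential.span_range_derivation, eq_comm, Submodule.span_eq_bot]
    rintro _ ⟨x, rfl⟩
    exact hD x
  haveI : Algebra.FormallyUnramified F L := ⟨hsub⟩
  exact Algebra.FormallyUnramified.isSeparable F L

end Pool.Agent.Lib.MP_682396_ag
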