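import Pool.Agent.Lib.MP_682396_ag.Noether

/-!
# A weak form of the theorem of Cohen and Gabber (module P3)
-/

set_option autoImplicit false

open Module IsLocalRing

namespace Pool.Agent.Lib.MP_682396_ag

theorem exists_frob_decomp {K : Type*} [Field K] (p : ℕ) [hp : Fact p.Prime] [CharP K p]
    [PerfectRing K p] {d : ℕ} (f : MvPowerSeries (Fin d) K) :
    ∃ g : (Fin d → Fin p) → MvPowerSeries (Fin d) K,
      f = ∑ α : Fin d → Fin p, (∏ l, MvPowerSeries.X l ^ (α l : ℕ)) * g α ^ p := by
  classical
  have hp0 : p ≠ 0 := hp.out.ne_zero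
  let e : (Fin d → Fin p) → (Fin d →₀ ℕ) := fun α =>
    Finsupp.equivFunOnFinite.symm (fun l => (α l : ℕ))
  have he : ∀ α l, e α l = (α l : ℕ) := fun α l => rfl
  have hmon : ∀ α : Fin d → Fin p, (∏ l, (MvPowerSeries.X l : MvPowerSeries (Fin d) K) ^ (α l : ℕ))
      = MvPowerSeries.monomial (e α) 1 := by
    intro α
    rw [MvPowerSeries.monomial_one_eq, Finsupp.prod_fintype _ _ (fun i => pow_zero _)]
    rfl
  let g : (Fin d → Fin p) → MvPowerSeries (Fin d) K := fun α m =>
    (frobeniusEquiv K p).symm (MvPowerSeries.coeff (p • m + e α) f)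
  have hg : ∀ α m, (MvPowerSeries.coeff m (g α)) ^ p = MvPowerSeries.coeff (p • m + e α) f := by
    intro α m
    have h1 : MvPowerSeries.coeff m (g α) =
      (frobeniusEquiv K p).symm (MvPowerSeries.coeff (p • m + e α) f) := rfl
    rw [h1]
    exact frobeniusEquiv_symm_pow_p _ _ _
  have hgp : ∀ α n, MvPowerSeries.coeff n (g α ^ p) =
      (MvPowerSeries.coeff n ((g α).expand p hp0)) ^ p := by
    intro α n
    rw [← MvPowerSeries.map_frobenius_expand p hp0, MvPowerSeries.coeff_map, frobenius_def]
  refine ⟨g, ?_⟩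
  ext n
  rw [map_sum]
  let α₀ : Fin d → Fin p := fun l => ⟨n l % p, Nat.mod_lt _ hp.out.pos⟩
  let m₀ : Fin d →₀ ℕ := Finsupp.equivFunOnFinite.symm (fun l => n l / p)
  have hn : p • m₀ + e α₀ = n := by
    ext l
    show p * (n l / p) + n l % p = n l
    exact Nat.div_add_mod _ _
  rw [Finset.sum_eq_single α₀]
  · rw [hmon, MvPowerSeries.coeff_monomial_mul, if_pos (by rw [← hn]; exact le_add_self), one_mul]
    have h1 : n - e α₀ = p • m₀ := by
      conv_lhs => rw [← hn]
      simp
    rw [h1, hgp, MvPowerSeries.coeff_expand_smul, hg, hn]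
  · intro α _ hα
    rw [hmon, MvPowerSeries.coeff_monomial_mul]
    split_ifs with hle
    · rw [hgp]
      have h2 : ∃ l, ¬ p ∣ (n - e α) l := by
        by_contra! hc
        apply hα
        funext l
        apply Fin.ext
        show (α l : ℕ) = n l % p
        have h3 : p ∣ n l - (α l : ℕ) := hc l
        have h4 : (α l : ℕ) ≤ n l := hle l
        have h5 : (α l : ℕ) < p := (α l).2
        obtain ⟨c, hc'⟩ := h3
        have h6 : n l = (α l : ℕ) + p * c := by omega
        rw [h6, Nat.add_mul_mod_self_left, Nat.mod_eq_of_lt h5]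
      obtain ⟨l, hl⟩ := h2
      rw [MvPowerSeries.coeff_expand_of_not_dvd p hp0 _ hl, zero_pow hp0, mul_zero]
    · rfl
  · intro h
    exact absurd (Finset.mem_univ _) h

/-- Greedy choice of generators. -/
theorem greedy {L : Type*} [Field L] (p : ℕ) [hp : Fact p.Prime] [CharP L p] (T : Set L)
    (t₀ : L) (ht₀ : t₀ ∈ T) (k : ℕ) : ∀ (E : Subfield L), (∀ x : L, x ^ p ∈ E) →
      FiniteDimensional E L → finrank E L ≤ p ^ k →
      (∀ E' : Subfield L, E ≤ E' → T ⊆ E' → E' = ⊤) →
      ∃ t : Fin k → L, (∀ i, t i ∈ T) ∧ ∀ E' : Subfield L, E ≤ E' → (∀ i, t i ∈ E') → E' = ⊤ := by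
  induction k with
  | zero =>
    intro E hE hfin hrk hgen
    refine ⟨fun i => i.elim0, fun i => i.elim0, fun E' hle _ => ?_⟩
    have h1 : finrank E L = 1 := by
      have : 0 < finrank E L := finrank_pos
      rw [pow_zero] at hrk
      omega
    rw [← Subfield.relfinrank_top_right, Subfield.relfinrank_eq_one_iff] at h1
    exact top_le_iff.mp (h1.trans hle)
  | succ k ih =>
    intro E hE hfin hrk hgen
    by_cases hT : T ⊆ E
    · have h1 : E = ⊤ := hgen E le_rfl hT
      exact ⟨fun _ => t₀, fun _ => ht₀, fun E' hle _ => top_le_iff.mp (h1 ▸ hle)⟩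
    · obtain ⟨t, htT, htE⟩ := Set.not_subset.mp hT
      let F₁ : IntermediateField E L := IntermediateField.adjoin E {t}
      let E₁ : Subfield L := F₁.toSubfield
      have hle₁ : E ≤ E₁ := fun x hx => F₁.algebraMap_mem ⟨x, hx⟩
      have htE₁ : t ∈ E₁ := IntermediateField.mem_adjoin_simple_self E t
      have hint : IsIntegral E t := IsIntegral.of_finite E t
      have hdeg : finrank E F₁ = p := by
        rw [IntermediateField.adjoin.finrank hint]
        let a : E := ⟨t ^ p, hE t⟩
        have hirr : Irreducible (Polynomial.X ^ p - Polynomial.C a) := by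
          apply X_pow_sub_C_irreducible_of_prime hp.out
          rintro ⟨b, hb⟩ hba
          have h2 : b ^ p = t ^ p := congrArg Subtype.val hba
          have h3 : (b - t) ^ p = 0 := by rw [sub_pow_char, h2, sub_self]
          have h4 : b = t := sub_eq_zero.mp (pow_eq_zero_iff hp.out.ne_zero |>.mp h3)
          exact htE (h4 ▸ hb)
        have hmin := minpoly.eq_of_irreducible_of_monic (x := t) hirr (by
          rw [map_sub, map_pow, Polynomial.aeval_X, Polynomial.aeval_C]
          exact sub_self _) (Polynomial.monic_X_pow_sub_C a hp.out.ne_zero)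
        rw [← hmin, Polynomial.natDegree_X_pow_sub_C]
      have hmul : finrank E F₁ * finrank F₁ L = finrank E L := finrank_mul_finrank E F₁ L
      have hrk₁ : finrank E₁ L ≤ p ^ k := by
        show finrank F₁ L ≤ p ^ k
        have h5 : p * finrank F₁ L ≤ p * p ^ k := by
          rw [hdeg] at hmul
          rw [hmul, ← pow_succ']
          exact hrk
        exact Nat.le_of_mul_le_mul_left h5 hp.out.pos
      have hfin₁ : FiniteDimensional E₁ L := by
        show FiniteDimensional F₁ L
        exact FiniteDimensional.right E F₁ L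
      obtain ⟨t', ht'T, ht'⟩ := ih E₁ (fun x => hle₁ (hE x)) hfin₁ hrk₁
        (fun E' hle hT' => hgen E' (hle₁.trans hle) hT')
      refine ⟨Fin.cons t t', ?_, ?_⟩
      · intro i
        refine Fin.cases ?_ (fun j => ?_) i
        · exact htT
        · exact ht'T j
      · intro E' hle hmem
        apply ht' E'
        · have h6 : t ∈ E' := by simpa using hmem 0
          let F' : IntermediateField E L := ⟨⟨⟨⟨⟨E'.carrier, E'.mul_mem'⟩, E'.one_mem'⟩, E'.add_mem', E'.zero_mem'⟩, fun r => hle r.2⟩, fun x hx => E'.inv_mem hx⟩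
          have h7 : F₁ ≤ F' := by
            rw [IntermediateField.adjoin_le_iff, Set.singleton_subset_iff]
            exact h6
          exact h7
        · intro i
          simpa using hmem i.succ


/-- Degree count: `[L : L ^ p] ≤ [F : F ^ p]` for `L / F` finite. -/
theorem degree_count {L : Type*} [Field L] (p : ℕ) [hp : Fact p.Prime] [CharP L p]
    (F : Subfield L) [FiniteDimensional F L] {ι : Type*} [Fintype ι] (w : ι → L)
    (hw : ∀ x ∈ F, ∃ c : ι → L, (∀ i, c i ∈ F) ∧ x = ∑ i, w i * c i ^ p) :
    FiniteDimensional (frobenius L p).fieldRange L ∧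
      finrank (frobenius L p).fieldRange L ≤ Fintype.card ι := by
  classical
  let E : Subfield L := (frobenius L p).fieldRange
  let F' : Subfield L := F.map (frobenius L p)
  have hF'E : F' ≤ E := by
    rintro _ ⟨x, _, rfl⟩
    exact ⟨x, rfl⟩
  let n := finrank F L
  have hn : 0 < n := finrank_pos
  let b : Basis (Fin n) F L := finBasis F L
  have hspan : Submodule.span F' (Set.range fun q : Fin n × ι => w q.2 * b q.1) = ⊤ := by
    rw [eq_top_iff]
    intro x _
    rw [← b.sum_repr x]
    refine Submodule.sum_mem _ fun j _ => ?_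
    obtain ⟨c, hc, hx⟩ := hw (b.repr x j) (b.repr x j).2
    have h1 : (b.repr x j) • b j = ∑ i, (⟨c i ^ p, ⟨c i, hc i, rfl⟩⟩ : F') • (w i * b j) := by
      show ((b.repr x j : F) : L) * b j = ∑ i, c i ^ p * (w i * b j)
      rw [hx, Finset.sum_mul]
      refine Finset.sum_congr rfl fun i _ => by ring
    rw [h1]
    refine Submodule.sum_mem _ fun i _ => ?_
    exact Submodule.smul_mem _ _ (Submodule.subset_span ⟨(j, i), rfl⟩)
  have hfin' : FiniteDimensional F' L := ⟨⟨Finset.univ.image (fun q : Fin n × ι => w q.2 * b q.1), by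
    rw [Finset.coe_image, Finset.coe_univ, Set.image_univ]
    exact hspan⟩⟩
  have hle : finrank F' L ≤ n * Fintype.card ι := by
    have h2 := finrank_range_le_card (R := F') (fun q : Fin n × ι => w q.2 * b q.1)
    rw [Set.finrank, hspan, finrank_top, Fintype.card_prod, Fintype.card_fin] at h2
    exact h2
  have hmul := Subfield.relfinrank_mul_finrank_top hF'E
  have htop : E = (⊤ : Subfield L).map (frobenius L p) := (frobenius L p).fieldRange_eq_map
  have hrel : Subfield.relfinrank F' E = n := by
    rw [htop, Subfield.relfinrank_map_map, Subfield.relfinrank_top_right]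
  rw [hrel] at hmul
  have hpos : 0 < finrank F' L := finrank_pos
  have hE : finrank E L ≤ Fintype.card ι := by
    apply Nat.le_of_mul_le_mul_left _ hn
    rw [hmul]
    exact hle
  refine ⟨?_, hE⟩
  apply FiniteDimensional.of_finrank_pos
  by_contra h0
  have h3 : finrank E L = 0 := by
    change ¬ 0 < finrank E L at h0
    omega
  rw [h3, mul_zero] at hmul
  omega

/-- The fraction field of a finite extension is finite over the subfield generated by the
base. -/
theorem finite_fraction {Λ B L : Type*} [CommRing Λ] [CommRing B] [IsDomain B] [Algebra Λ B]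
    [Module.Finite Λ B] [Field L] [Algebra B L] [IsFractionRing B L]
    (F : Subfield L) (hF : ∀ a : Λ, algebraMap B L (algebraMap Λ B a) ∈ F) :
    FiniteDimensional F L := by
  classical
  obtain ⟨s, hs⟩ := Module.Finite.fg_top (R := Λ) (M := B)
  let S : Finset L := s.image (algebraMap B L)
  have hint : ∀ x : B, IsIntegral F (algebraMap B L x) := by
    intro x
    obtain ⟨q, hq, hqx⟩ := Algebra.IsIntegral.isIntegral (R := Λ) x
    let φ : Λ →+* F := ((algebraMap B L).comp (algebraMap Λ B)).codRestrict F hF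
    refine ⟨q.map φ, hq.map φ, ?_⟩
    rw [Polynomial.eval₂_map]
    have h1 : (algebraMap F L).comp φ = (algebraMap B L).comp (algebraMap Λ B) := by
      ext a; rfl
    rw [h1, ← Polynomial.hom_eval₂, hqx, map_zero]
  let I : IntermediateField F L := IntermediateField.adjoin F (S : Set L)
  have hfin : FiniteDimensional F I := by
    apply IntermediateField.finiteDimensional_adjoin
    intro x hx
    obtain ⟨y, _, rfl⟩ := Finset.mem_image.mp (Finset.mem_coe.mp hx)
    exact hint y
  have hB : ∀ x : B, algebraMap B L x ∈ I := by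
    intro x
    have hx : x ∈ Submodule.span Λ (s : Set B) := hs ▸ Submodule.mem_top
    induction hx using Submodule.span_induction with
    | mem y hy => exact IntermediateField.subset_adjoin F _ (Finset.mem_coe.mpr
        (Finset.mem_image_of_mem _ hy))
    | zero => rw [map_zero]; exact I.zero_mem
    | add a b _ _ ha hb => rw [map_add]; exact I.add_mem ha hb
    | smul c a _ ha =>
      rw [Algebra.smul_def, map_mul]
      exact I.mul_mem (I.algebraMap_mem ⟨_, hF c⟩) ha
  have htop : I = ⊤ := by
    rw [eq_top_iff]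
    intro x _
    obtain ⟨a, b, _, rfl⟩ := IsFractionRing.div_surjective (A := B) x
    exact I.div_mem (hB a) (hB b)
  have h2 : FiniteDimensional F (⊤ : IntermediateField F L) := htop ▸ hfin
  exact FiniteDimensional.of_surjective (IntermediateField.topEquiv (F := F) (E := L)).toLinearMap
    (IntermediateField.topEquiv (F := F) (E := L)).surjective

/-- P3. A weak form of the theorem of Cohen and Gabber. -/
theorem exists_units_closure {B : Type*} [CommRing B] [IsDomain B] [IsNoetherianRing B]
    [IsLocalRing B] [IsAdicComplete (maximalIdeal B) B] {K : Type*} [Field K] [Algebra K B]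
    (p : ℕ) [Fact p.Prime] [CharP K p] [PerfectRing K p]
    (hres : ∀ b : B, ∃ c : K, b - algebraMap K B c ∈ maximalIdeal B)
    {ι : Type*} [Fintype ι] (z : ι → B) (hz : ∀ i, z i ∈ maximalIdeal B)
    (hrad : maximalIdeal B ≤ (Ideal.span (Set.range z)).radical)
    (L : Type*) [Field L] [Algebra B L] [IsFractionRing B L] :
    ∃ b : ι → B, (∀ i, b i ∈ maximalIdeal B) ∧
      Subring.closure (Set.range (fun x : L => x ^ p) ∪
        Set.range (fun i => algebraMap B L (1 + b i))) = ⊤ := by
  classical
  have hp : p.Prime := Fact.out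
  have : CharP L p := charP_of_injective_ringHom
    ((algebraMap B L).comp (algebraMap K B)).injective p
  let e := Fintype.equivFin ι
  set d := Fintype.card ι with hd
  let y : Fin d → B := fun l => z (e.symm l)
  have hy : ∀ l, y l ∈ maximalIdeal B := fun l => hz _
  have hrange : Set.range y = Set.range z := by
    show Set.range (z ∘ e.symm) = _
    exact e.symm.surjective.range_comp z
  obtain ⟨φ, hφ⟩ := exists_eval (K := K) (maximalIdeal B) y hy
  let _ : Algebra (MvPowerSeries (Fin d) K) B := φ.toAlgebra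
  have hX : ∀ l, algebraMap (MvPowerSeries (Fin d) K) B (MvPowerSeries.X l) = y l := by
    intro l
    show φ (MvPowerSeries.X l) = y l
    rw [← MvPolynomial.coe_X, hφ, MvPolynomial.aeval_X]
  have htow : IsScalarTower K (MvPowerSeries (Fin d) K) B := by
    apply IsScalarTower.of_algebraMap_eq
    intro c
    show _ = φ _
    rw [← MvPowerSeries.c_eq_algebraMap, ← MvPolynomial.coe_C, hφ, MvPolynomial.aeval_C]
  have hfinB : Module.Finite (MvPowerSeries (Fin d) K) B := by
    apply finite_over_powerSeries hres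
    · intro l
      rw [hX]
      exact hy l
    · simp only [hX]
      change maximalIdeal B ≤ (Ideal.span (Set.range y)).radical
      rw [hrange]
      exact hrad
  let ψ : MvPowerSeries (Fin d) K →+* L := (algebraMap B L).comp φ
  let F : Subfield L := Subfield.closure (ψ.range : Set L)
  have hψF : ∀ a, ψ a ∈ F := fun a => Subfield.subset_closure ⟨a, rfl⟩
  have hfinL : FiniteDimensional F L := finite_fraction (Λ := MvPowerSeries (Fin d) K) (B := B) F hψF
  have hw : ∀ x ∈ F, ∃ c : (Fin d → Fin p) → L, (∀ i, c i ∈ F) ∧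
      x = ∑ i, ψ (∏ l, MvPowerSeries.X l ^ (i l : ℕ)) * c i ^ p := by
    intro x hx
    obtain ⟨a, ha, b, hb, rfl⟩ := Subfield.mem_closure_iff.mp hx
    rw [Subring.closure_eq] at ha hb
    obtain ⟨a, rfl⟩ := ha
    obtain ⟨b, rfl⟩ := hb
    by_cases hb0 : ψ b = 0
    · refine ⟨fun _ => 0, fun _ => F.zero_mem, ?_⟩
      rw [hb0, div_zero]
      simp [hp.ne_zero]
    · obtain ⟨g, hg⟩ := exists_frob_decomp p (a * b ^ (p - 1))
      refine ⟨fun i => ψ (g i) / ψ b, fun i => F.div_mem (hψF _) (hψF _), ?_⟩
      have h1 : ψ a / ψ b = ψ (a * b ^ (p - 1)) / ψ b ^ p := by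
        rw [map_mul, map_pow, div_eq_div_iff hb0 (pow_ne_zero _ hb0), mul_assoc, ← pow_succ,
          Nat.sub_add_cancel hp.one_le]
      rw [h1, hg, map_sum, Finset.sum_div]
      refine Finset.sum_congr rfl fun i _ => ?_
      rw [map_mul, map_pow, div_pow, mul_div_assoc]
  obtain ⟨hfinE, hrk⟩ := degree_count p F _ hw
  have hcard : Fintype.card (Fin d → Fin p) = p ^ d := by simp
  rw [hcard] at hrk
  let T : Set L := {x | ∃ b ∈ maximalIdeal B, x = algebraMap B L (1 + b)}
  have hpow : ∀ x : L, x ^ p ∈ (frobenius L p).fieldRange := fun x => ⟨x, rfl⟩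
  have hgen : ∀ E' : Subfield L, (frobenius L p).fieldRange ≤ E' → T ⊆ E' → E' = ⊤ := by
    intro E' hle hT
    have hB : ∀ x : B, algebraMap B L x ∈ E' := by
      intro x
      obtain ⟨c, hc⟩ := hres x
      obtain ⟨c', rfl⟩ : ∃ c' : K, c' ^ p = c := ⟨(frobeniusEquiv K p).symm c,
        frobeniusEquiv_symm_pow_p _ _ _⟩
      have h1 : algebraMap B L x = (algebraMap B L (algebraMap K B c')) ^ p +
          (algebraMap B L (1 + (x - algebraMap K B (c' ^ p))) - 1) := by
        simp only [map_add, map_sub, map_pow, map_one]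
        ring
      rw [h1]
      exact E'.add_mem (hle (hpow _)) (E'.sub_mem (hT ⟨_, hc, rfl⟩) E'.one_mem)
    rw [eq_top_iff]
    intro x _
    obtain ⟨a, b, _, rfl⟩ := IsFractionRing.div_surjective (A := B) x
    exact E'.div_mem (hB a) (hB b)
  obtain ⟨t, htT, ht⟩ := greedy p T 1 ⟨0, Ideal.zero_mem _, by simp⟩ d
    (frobenius L p).fieldRange hpow hfinE hrk hgen
  choose b hb htb using htT
  refine ⟨fun i => b (e i), fun i => hb _, ?_⟩
  let C : Subring L := Subring.closure (Set.range (fun x : L => x ^ p) ∪
        Set.range (fun i => algebraMap B L (1 + b (e i))))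
  have hC : ∀ x : L, x ^ p ∈ C := fun x => Subring.subset_closure (Or.inl ⟨x, rfl⟩)
  let C' : Subfield L := { C with
    inv_mem' := by
      intro x hx
      by_cases h0 : x = 0
      · rw [h0, inv_zero]; exact C.zero_mem
      · have h1 : x⁻¹ = x ^ (p - 1) * (x⁻¹) ^ p := by
          have h2 : (x⁻¹) ^ p = (x⁻¹) ^ (p - 1) * x⁻¹ := by
            rw [← pow_succ, Nat.sub_add_cancel hp.one_le]
          rw [h2, ← mul_assoc, ← mul_pow, mul_inv_cancel₀ h0, one_pow, one_mul]
        rw [h1]
        exact C.mul_mem (C.pow_mem hx _) (hC _) }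
  have h3 : C' = ⊤ := by
    apply ht C'
    · rintro _ ⟨x, rfl⟩
      exact hC x
    · intro i
      have h4 : algebraMap B L (1 + b (e (e.symm i))) ∈ C :=
        Subring.subset_closure (Or.inr ⟨e.symm i, rfl⟩)
      rw [Equiv.apply_symm_apply] at h4
      rw [htb i]
      exact h4
  rw [eq_top_iff]
  intro x _
  have h5 : x ∈ C' := h3 ▸ Subfield.mem_top x
  exact h5

end Pool.Agent.Lib.MP_682396_ag
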