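import Pool.Agent.Lib.MP_682396_ag.Isolated
import Pool.Agent.Lib.MP_682396_ag.Curve.Compl
import Pool.Agent.Lib.MP_682396_ag.CharP.P1
import Pool.Agent.Lib.MP_682396_ag.CharP.P2
import Pool.Agent.Lib.MP_682396_ag.CharP.P3

/-!
# Stable annihilators at regular primes, equal characteristic `p` (module P4)
-/

set_option autoImplicit false
set_option linter.unusedSectionVars false

open Module IsLocalRing RingTheory.Sequence
open scoped Pointwise

universe u v w

namespace Pool.Agent.Lib.MP_682396_ag

/-- Structure of algebra over a power series ring given by parameters and a coefficient field. -/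
theorem exists_algebra_of_section {R : Type u} [CommRing R] [IsNoetherianRing R] [IsLocalRing R]
    [IsAdicComplete (maximalIdeal R) R] [Algebra (ResidueField R) R]
    (hσ : ∀ x, residue R (algebraMap (ResidueField R) R x) = x) {d : ℕ} (y : Fin d → R)
    (hy : ∀ l, y l ∈ maximalIdeal R)
    (hrad : maximalIdeal R ≤ (Ideal.span (Set.range y)).radical) :
    ∃ (_ : Algebra (MvPowerSeries (Fin d) (ResidueField R)) R),
      IsScalarTower (ResidueField R) (MvPowerSeries (Fin d) (ResidueField R)) R ∧
      (∀ l, xs (ResidueField R) d R l = y l) ∧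
      Module.Finite (MvPowerSeries (Fin d) (ResidueField R)) R := by
  obtain ⟨φ, hφ⟩ := exists_eval (K := ResidueField R) (maximalIdeal R) y hy
  let _ : Algebra (MvPowerSeries (Fin d) (ResidueField R)) R := φ.toAlgebra
  have htow : IsScalarTower (ResidueField R) (MvPowerSeries (Fin d) (ResidueField R)) R := by
    apply IsScalarTower.of_algebraMap_eq
    intro c
    show _ = φ _
    rw [← MvPowerSeries.c_eq_algebraMap, ← MvPolynomial.coe_C, hφ, MvPolynomial.aeval_C]
  have hX : ∀ l, xs (ResidueField R) d R l = y l := by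
    intro l
    show φ (MvPowerSeries.X l) = y l
    rw [← MvPolynomial.coe_X, hφ, MvPolynomial.aeval_X]
  have hres : ∀ r : R, ∃ c : ResidueField R,
      r - algebraMap (ResidueField R) R c ∈ maximalIdeal R := by
    intro r
    refine ⟨residue R r, ?_⟩
    rw [← residue_eq_zero_iff, map_sub, hσ, sub_self]
  refine ⟨_, htow, hX, ?_⟩
  apply finite_over_powerSeries hres
  · intro l
    have := hX l
    rw [xs] at this
    rw [this]
    exact hy l
  · have : (fun l : Fin d => algebraMap (MvPowerSeries (Fin d) (ResidueField R)) R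
        (MvPowerSeries.X l)) = y := funext hX
    rw [this]
    exact hrad

/-- P4. A regular prime does not contain all uniform stable annihilators (equal characteristic
`p`, perfect residue field). -/
theorem exists_stabAnn_notMem_charP {R : Type u} [CommRing R] [IsNoetherianRing R] [IsLocalRing R]
    [IsAdicComplete (maximalIdeal R) R] (p : ℕ) [Fact p.Prime] [CharP R p]
    [PerfectRing (ResidueField R) p] (P : Ideal R) [P.IsPrime]
    [IsRegularLocalRing (Localization.AtPrime P)] {d : ℕ} (hd : (maximalIdeal R).height = d) :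
    ∃ z : R, z ∉ P ∧ ∀ (M : Type u) [AddCommGroup M] [Module R M] [Module.Finite R M],
      HasDepth R d M → StabAnn z M := by
  classical
  have hp : p.Prime := Fact.out
  obtain ⟨y, hy, hrad, hgen⟩ := exists_sop P hd
  let K := ResidueField R
  have hpk : ((p : ℕ) : K) = 0 := by
    have h := congrArg (residue R) (CharP.cast_eq_zero R p)
    rwa [map_natCast, map_zero] at h
  have hck : CharP K p := (CharP.charP_iff_prime_eq_zero hp).2 hpk
  obtain ⟨σ, hσ⟩ := exists_section_charP (R := R) p
  let _ : Algebra K R := σ.toAlgebra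
  have hσ' : ∀ x, residue R (algebraMap (ResidueField R) R x) = x := hσ
  -- the quotient
  let B := R ⧸ P
  have hlocB : IsLocalRing B := IsLocalRing.of_surjective' _ Ideal.Quotient.mk_surjective
  have hcompB : IsAdicComplete (maximalIdeal B) B := isAdicComplete_quotient P
  have hmaxB := map_mk_maximalIdeal P
  have hres : ∀ r : R, ∃ c : K, r - algebraMap K R c ∈ maximalIdeal R := by
    intro r
    refine ⟨residue R r, ?_⟩
    rw [← residue_eq_zero_iff, map_sub, hσ', sub_self]
  have hresB : ∀ b : B, ∃ c : K, b - algebraMap K B c ∈ maximalIdeal B := by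
    intro b
    obtain ⟨r, rfl⟩ := Ideal.Quotient.mk_surjective b
    obtain ⟨c, hc⟩ := hres r
    refine ⟨c, ?_⟩
    rw [← hmaxB]
    exact Ideal.mem_map_of_mem _ hc
  let ι := {l : Fin d // y l ∉ P}
  let z : ι → B := fun i => Ideal.Quotient.mk P (y i.1)
  have hz : ∀ i, z i ∈ maximalIdeal B := by
    intro i
    rw [← hmaxB]
    exact Ideal.mem_map_of_mem _ (hy i.1)
  have hradB : maximalIdeal B ≤ (Ideal.span (Set.range z)).radical := by
    have h1 : (Ideal.span (Set.range y)).map (Ideal.Quotient.mk P) ≤ Ideal.span (Set.range z) := by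
      rw [Ideal.map_span, Ideal.span_le]
      rintro _ ⟨_, ⟨l, rfl⟩, rfl⟩
      by_cases hl : y l ∈ P
      · rw [Ideal.Quotient.eq_zero_iff_mem.mpr hl]
        exact Submodule.zero_mem _
      · exact Ideal.subset_span ⟨⟨l, hl⟩, rfl⟩
    rw [← hmaxB, Ideal.map_le_iff_le_comap]
    intro r hr
    obtain ⟨n, hn⟩ := hrad hr
    rw [Ideal.mem_comap]
    refine ⟨n, ?_⟩
    rw [← map_pow]
    exact h1 (Ideal.mem_map_of_mem _ hn)
  obtain ⟨b, hb, hclos⟩ := exists_units_closure (B := B) (K := K) p hresB z hz hradB
    P.ResidueField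
  -- lift
  have hlift : ∀ i : ι, ∃ c : R, c ∈ maximalIdeal R ∧ Ideal.Quotient.mk P c = b i := by
    intro i
    have h1 := hb i
    rw [← hmaxB, Ideal.mem_map_iff_of_surjective _ Ideal.Quotient.mk_surjective] at h1
    exact h1
  choose c hc hcb using hlift
  have hunit : ∀ i, IsUnit (1 + c i) := by
    intro i
    by_contra hnu
    have h1 : 1 + c i ∈ maximalIdeal R := (mem_maximalIdeal _).mpr hnu
    have h2 : (1 : R) ∈ maximalIdeal R := by
      have := Ideal.sub_mem _ h1 (hc i)
      rwa [add_sub_cancel_right] at this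
    exact (maximalIdeal.isMaximal R).ne_top ((Ideal.eq_top_iff_one _).mpr h2)
  let y' : Fin d → R := fun l => if h : y l ∈ P then y l else y l ^ p * (1 + c ⟨l, h⟩)
  have hy'1 : ∀ l, y l ∈ P → y' l = y l := fun l h => dif_pos h
  have hy'2 : ∀ i : ι, y' i.1 = y i.1 ^ p * (1 + c i) := fun i => dif_neg i.2
  have hy' : ∀ l, y' l ∈ maximalIdeal R := by
    intro l
    by_cases h : y l ∈ P
    · rw [hy'1 l h]; exact hy l
    · rw [hy'2 ⟨l, h⟩]
      exact Ideal.mul_mem_right _ _ (Ideal.pow_mem_of_mem _ (hy l) _ hp.pos)
  have hrad' : maximalIdeal R ≤ (Ideal.span (Set.range y')).radical := by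
    refine hrad.trans ?_
    rw [Ideal.radical_le_radical_iff, Ideal.span_le]
    rintro _ ⟨l, rfl⟩
    by_cases h : y l ∈ P
    · refine ⟨1, ?_⟩
      rw [pow_one, ← hy'1 l h]
      exact Ideal.subset_span ⟨l, rfl⟩
    · refine ⟨p, ?_⟩
      obtain ⟨u, hu⟩ := hunit ⟨l, h⟩
      have h1 : y l ^ p = y' l * (↑u⁻¹ : R) := by
        rw [hy'2 ⟨l, h⟩, ← hu, mul_assoc, Units.mul_inv, mul_one]
      rw [h1]
      exact Ideal.mul_mem_right _ _ (Ideal.subset_span ⟨l, rfl⟩)
  obtain ⟨_, htow, hX, hfin⟩ := exists_algebra_of_section hσ' y' hy' hrad'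
  let A := MvPowerSeries (Fin d) K
  let q : Ideal A := P.under A
  have hq : q.IsPrime := inferInstance
  have hlo : P.LiesOver q := inferInstance
  have hint : Algebra.IsIntegral A R := inferInstance
  let L := P.ResidueField
  have hcL : CharP L p := by
    have hpL : ((p : ℕ) : L) = 0 := by
      have h := congrArg (algebraMap R L) (CharP.cast_eq_zero R p)
      rwa [map_natCast, map_zero] at h
    exact (CharP.charP_iff_prime_eq_zero hp).2 hpL
  have hunr : Algebra.IsUnramifiedAt A P := by
    let _ := Localization.AtPrime.algebraOfLiesOver q P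
    rw [Algebra.isUnramifiedAt_iff_map_eq A q P]
    refine ⟨?_, ?_⟩
    · have hfd : FiniteDimensional q.ResidueField P.ResidueField := inferInstance
      apply isSeparable_of_closure p
      rw [eq_top_iff, ← hclos, Subring.closure_le, Set.union_subset_iff]
      refine ⟨fun x hx => Subring.subset_closure (Or.inl hx), ?_⟩
      rintro _ ⟨i, rfl⟩
      let C : Subring L := Subring.closure (Set.range (fun x : L => x ^ p) ∪
        Set.range (algebraMap q.ResidueField L))
      have hy0 : algebraMap R L (y i.1) ≠ 0 := by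
        rw [Ne, Ideal.algebraMap_residueField_eq_zero]
        exact i.2
      have h1 : algebraMap R L (y' i.1) ∈ C := by
        have h2 : y' i.1 = algebraMap A R (MvPowerSeries.X i.1) := (hX i.1).symm
        rw [h2, ← IsScalarTower.algebraMap_apply A R L,
          IsScalarTower.algebraMap_apply A q.ResidueField L]
        exact Subring.subset_closure (Or.inr ⟨_, rfl⟩)
      have h3 : algebraMap B L (1 + b i) = algebraMap R L (1 + c i) := by
        rw [IsScalarTower.algebraMap_apply R B L]
        congr 1
        rw [← hcb i]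
        show _ = Ideal.Quotient.mk P (1 + c i)
        rw [map_add, map_one]
      have h4 : algebraMap B L (1 + b i) =
          algebraMap R L (y' i.1) * ((algebraMap R L (y i.1))⁻¹) ^ p := by
        rw [h3, hy'2 i, map_mul, map_pow, mul_comm, ← mul_assoc, ← mul_pow,
          inv_mul_cancel₀ hy0, one_pow, one_mul]
      show algebraMap B L (1 + b i) ∈ C
      rw [h4]
      exact C.mul_mem h1 (Subring.subset_closure (Or.inl ⟨_, rfl⟩))
    · refine le_antisymm ?_ ?_
      · rw [Ideal.map_le_iff_le_comap]
        intro a ha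
        rw [Ideal.mem_comap, IsScalarTower.algebraMap_apply A R (Localization.AtPrime P),
          IsLocalization.AtPrime.to_map_mem_maximal_iff _ P]
        exact (Ideal.mem_of_liesOver P q a).mp ha
      · refine hgen.trans ?_
        rw [Ideal.span_le]
        rintro _ ⟨l, hl, rfl⟩
        have h1 : y l = algebraMap A R (MvPowerSeries.X l) := by
          rw [← hy'1 l hl]; exact (hX l).symm
        rw [h1, ← IsScalarTower.algebraMap_apply A R (Localization.AtPrime P)]
        apply Ideal.mem_map_of_mem
        show algebraMap A R (MvPowerSeries.X l) ∈ P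
        rw [← h1]
        exact hl
  obtain ⟨z, hz, hM⟩ := exists_stabAnn_of_isUnramifiedAt.{u} (A := A) P
  refine ⟨z, hz, fun M _ _ _ hdepth => ?_⟩
  obtain ⟨rs, hmem, hreg, hlen⟩ := hdepth
  let _ : Module A M := Module.compHom M (algebraMap A R)
  have _ : IsScalarTower A R M := IsScalarTower.of_algebraMap_smul fun _ _ => rfl
  have hfx : xs K d R = y' := funext hX
  obtain ⟨h1, h2⟩ := free_of_depth (K := K) (R := R) (d := d) (fun l => by rw [hX]; exact hy' l)
    (by rw [hfx, ofList_ofFn]; exact hrad') hmem hreg hlen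
  exact hM M

end Pool.Agent.Lib.MP_682396_ag
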