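import Mathlib

/-!
# P5: finitely many primes of the base suffice, for a list of elements
-/

set_option autoImplicit false
set_option linter.unusedSectionVars false

open Module IsLocalRing
open scoped Pointwise TensorProduct

universe u v w

namespace Pool.Agent.Lib.MP_682396_ag

/-- Associated primes of `L ⊗ A/p` contract to `p`, for `L` flat. -/
theorem comap_eq_of_ass {A : Type u} [CommRing A] (p : Ideal A) [hp : p.IsPrime] (N : Type v)
    [AddCommGroup N] [Module A N] (e : N ≃ₗ[A] A ⧸ p) (L : Type w) [CommRing L]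
    [Algebra A L] [Module.Flat A L] (q : Ideal L) (hq : IsAssociatedPrime q (L ⊗[A] N)) :
    q.comap (algebraMap A L) = p := by
  obtain ⟨hq1, z, hz⟩ := hq
  have hz0 : z ≠ 0 := by
    rintro rfl
    apply hq1.ne_top
    rw [hz]
    simp
  ext a
  rw [Ideal.mem_comap, hz, Ideal.mem_radical_iff]
  constructor
  · rintro ⟨n, hn⟩
    by_contra ha
    have hinj : Function.Injective (LinearMap.lsmul A N (a ^ n)) := by
      intro y y' hy
      have h1 : a ^ n • e y = a ^ n • e y' := by
        rw [← map_smul, ← map_smul]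
        exact congrArg e hy
      have h2 : (Ideal.Quotient.mk p (a ^ n)) ≠ 0 := by
        rw [Ne, Ideal.Quotient.eq_zero_iff_mem]
        intro h
        exact ha (hp.mem_of_pow_mem n h)
      rw [← sub_eq_zero, ← smul_sub] at h1
      have h3 : (Ideal.Quotient.mk p (a ^ n)) * (e y - e y') = 0 := by
        rw [← h1, Algebra.smul_def]
        rfl
      rcases mul_eq_zero.mp h3 with h4 | h4
      · exact absurd h4 h2
      · exact e.injective (sub_eq_zero.mp h4)
    have hinj' : Function.Injective (LinearMap.lTensor L (LinearMap.lsmul A N (a ^ n))) :=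
      Module.Flat.lTensor_preserves_injective_linearMap _ hinj
    have h1 : LinearMap.lTensor L (LinearMap.lsmul A N (a ^ n)) =
        LinearMap.lsmul A (L ⊗[A] N) (a ^ n) := by
      ext l m
      simp
    rw [h1] at hinj'
    rw [Submodule.mem_colon_singleton, Submodule.mem_bot, ← map_pow, algebraMap_smul] at hn
    apply hz0
    apply hinj'
    rw [map_zero]
    exact hn
  · intro ha
    refine ⟨1, ?_⟩
    rw [pow_one, Submodule.mem_colon_singleton, Submodule.mem_bot, algebraMap_smul]
    have h1 : LinearMap.lsmul A N a = 0 := by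
      ext y
      apply e.injective
      rw [LinearMap.lsmul_apply, map_smul, LinearMap.zero_apply, map_zero]
      obtain ⟨b, hb⟩ := Ideal.Quotient.mk_surjective (e y)
      rw [← hb, Algebra.smul_def]
      show Ideal.Quotient.mk p a * Ideal.Quotient.mk p b = 0
      rw [← map_mul, Ideal.Quotient.eq_zero_iff_mem]
      exact Ideal.mul_mem_right _ _ ha
    have h2 : LinearMap.lTensor L (LinearMap.lsmul A N a) =
        LinearMap.lsmul A (L ⊗[A] N) a := by
      ext l m
      simp
    have h3 : LinearMap.lsmul A (L ⊗[A] N) a z = 0 := by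
      rw [← h2, h1, LinearMap.lTensor_zero, LinearMap.zero_apply]
    exact h3

/-- The associated primes of the base changes of a finite module along all flat algebras are
associated to the base changes of finitely many `A/r`. -/
theorem exists_finite_ass (A : Type u) [CommRing A] [IsNoetherianRing A] (N : Type v)
    [AddCommGroup N] [Module A N] [hN : Module.Finite A N] :
    ∃ S : Set (Ideal A), S.Finite ∧ (∀ r ∈ S, r.IsPrime) ∧ ∀ (L : Type w) [CommRing L]
      [Algebra A L] [Module.Flat A L] (q : Ideal L), IsAssociatedPrime q (L ⊗[A] N) →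
      ∃ r ∈ S, IsAssociatedPrime q (L ⊗[A] (A ⧸ r)) := by
  induction hN using IsNoetherianRing.induction_on_isQuotientEquivQuotientPrime A with
  | subsingleton N =>
    refine ⟨∅, Set.finite_empty, fun r hr => absurd hr (Set.notMem_empty _),
      fun L _ _ _ q hq => ?_⟩
    exact absurd hq not_isAssociatedPrime_of_subsingleton
  | quotient N p e =>
    refine ⟨{p.1}, Set.finite_singleton _, ?_, fun L _ _ _ q hq => ?_⟩
    · intro r hr
      rw [Set.mem_singleton_iff] at hr
      rw [hr]
      exact p.2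
    · refine ⟨p.1, Set.mem_singleton _, ?_⟩
      have e' : (L ⊗[A] N) ≃ₗ[L] (L ⊗[A] (A ⧸ p.1)) := LinearEquiv.baseChange A L N (A ⧸ p.1) e
      exact e'.isAssociatedPrime_iff.mp hq
  | exact N₁ N₂ N₃ f g hf hg hfg h₁ h₃ =>
    obtain ⟨S₁, hS₁, hp₁, h₁⟩ := h₁
    obtain ⟨S₃, hS₃, hp₃, h₃⟩ := h₃
    refine ⟨S₁ ∪ S₃, hS₁.union hS₃, ?_, fun L _ _ _ q hq => ?_⟩
    · rintro r (hr | hr)
      · exact hp₁ r hr
      · exact hp₃ r hr
    have hf' : Function.Injective (LinearMap.baseChange L f) := by
      have := Module.Flat.lTensor_preserves_injective_linearMap (M := L) f hf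
      exact this
    have hfg' : Function.Exact (LinearMap.baseChange L f) (LinearMap.baseChange L g) := by
      have := lTensor_exact L hfg hg
      exact this
    rcases associatedPrimes.subset_union_of_exact (R := L) hf' hfg' hq with h | h
    · obtain ⟨r, hr, h2⟩ := h₁ L q h
      exact ⟨r, Or.inl hr, h2⟩
    · obtain ⟨r, hr, h2⟩ := h₃ L q h
      exact ⟨r, Or.inr hr, h2⟩

/-- A prime associated to the reduction above an associated prime. -/
theorem exists_ass_quot_module {S : Type u} [CommRing S] [IsNoetherianRing S] [IsLocalRing S]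
    (N : Type v) [AddCommGroup N] [Module S N] [Module.Finite S N] {f : S}
    (hf : f ∈ maximalIdeal S) (hreg : IsSMulRegular N f) {q : Ideal S}
    (hass : IsAssociatedPrime q N) :
    ∃ P : Ideal S, IsAssociatedPrime P (QuotSMulTop f N) ∧ q ≤ P ∧ f ∈ P := by
  obtain ⟨hqp, z₀, hz₀⟩ := isAssociatedPrime_iff.mp hass
  have hz₀' : ∀ a, a ∈ q ↔ a • z₀ = 0 := by
    intro a
    rw [hz₀, Submodule.mem_colon_singleton, Submodule.mem_bot]
  let U : Submodule S N := Submodule.torsionBySet S N q
  have hU : ∀ m, m ∈ U ↔ ∀ a ∈ q, a • m = 0 := by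
    intro m
    rw [Submodule.mem_torsionBySet_iff]
    exact ⟨fun h a ha => h ⟨a, ha⟩, fun h a => h a.1 a.2⟩
  have hz₀U : z₀ ∈ U := (hU z₀).mpr fun a ha => (hz₀' a).mp ha
  obtain ⟨z, hzU, hz⟩ : ∃ z ∈ U, z ∉ (f • ⊤ : Submodule S N) := by
    by_contra hcon
    push Not at hcon
    have h1 : U ≤ maximalIdeal S • U := by
      intro u hu
      obtain ⟨m, -, rfl⟩ := Submodule.mem_smul_pointwise_iff_exists _ _ _ |>.mp (hcon u hu)
      apply Submodule.smul_mem_smul hf
      rw [hU] at hu ⊢
      intro a ha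
      apply hreg
      simp only [smul_zero]
      rw [smul_comm]
      exact hu a ha
    have h2 : U = ⊥ := Submodule.eq_bot_of_le_smul_of_le_jacobson_bot (maximalIdeal S) U
      (IsNoetherian.noetherian U) h1 (IsLocalRing.maximalIdeal_le_jacobson _)
    have h3 : z₀ = 0 := by
      rw [h2] at hz₀U
      exact (Submodule.mem_bot S).mp hz₀U
    apply hqp.ne_top
    rw [Ideal.eq_top_iff_one, hz₀', h3, smul_zero]
  have hz' : (Submodule.Quotient.mk z : QuotSMulTop f N) ≠ 0 := by
    intro h
    exact hz ((Submodule.Quotient.mk_eq_zero _).mp h)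
  obtain ⟨P, hP, hle⟩ := exists_le_isAssociatedPrime_of_isNoetherianRing S _ hz'
  refine ⟨P, hP, fun a ha => ?_, ?_⟩
  · apply hle
    rw [Submodule.mem_colon_singleton, Submodule.mem_bot, ← Submodule.Quotient.mk_smul,
      (hU z).mp hzU a ha, Submodule.Quotient.mk_zero]
  · apply hle
    rw [Submodule.mem_colon_singleton, Submodule.mem_bot, ← Submodule.Quotient.mk_smul]
    exact (Submodule.Quotient.mk_eq_zero _).mpr (Submodule.smul_mem_pointwise_smul _ _ ⊤ trivial)

theorem exists_finite_primes_aux (A : Type u) [CommRing A] [IsNoetherianRing A] (fs : List A) :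
    ∀ r : Ideal A, r.IsPrime → ∃ S : Set (Ideal A), S.Finite ∧ ∀ (L : Type w) [CommRing L]
      [Algebra A L] [Module.Flat A L] [IsNoetherianRing L] [IsLocalRing L],
      (∀ f ∈ fs, algebraMap A L f ∈ maximalIdeal L) →
      ∀ q : Ideal L, IsAssociatedPrime q (L ⊗[A] (A ⧸ r)) → ∃ P : Ideal L, P.IsPrime ∧ q ≤ P ∧
        (∀ f ∈ fs, algebraMap A L f ∈ P) ∧ P.comap (algebraMap A L) ∈ S := by
  induction fs with
  | nil =>
    intro r hr
    refine ⟨{r}, Set.finite_singleton _, fun L _ _ _ _ _ _ q hq => ?_⟩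
    refine ⟨q, hq.isPrime, le_rfl, fun f hf => absurd hf List.not_mem_nil, ?_⟩
    rw [Set.mem_singleton_iff]
    exact comap_eq_of_ass r (A ⧸ r) (LinearEquiv.refl A _) L q hq
  | cons f fs ih =>
    intro r hr
    by_cases hf : f ∈ r
    · obtain ⟨S, hS, h⟩ := ih r hr
      refine ⟨S, hS, fun L _ _ _ _ _ hfs q hq => ?_⟩
      obtain ⟨P, hP, hqP, hfP, hPS⟩ := h L (fun g hg => hfs g (List.mem_cons_of_mem _ hg)) q hq
      refine ⟨P, hP, hqP, ?_, hPS⟩
      intro g hg
      rcases List.mem_cons.1 hg with rfl | hg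
      · apply hqP
        have h1 := comap_eq_of_ass r (A ⧸ r) (LinearEquiv.refl A _) L q hq
        rw [← h1] at hf
        exact hf
      · exact hfP g hg
    · obtain ⟨S₀, hS₀, hp₀, h₀⟩ := exists_finite_ass.{u, u, w} A (QuotSMulTop f (A ⧸ r))
      choose! T hT hT' using ih
      refine ⟨⋃ r' ∈ S₀, T r', hS₀.biUnion fun r' hr' => hT r' (hp₀ r' hr'),
        fun L _ _ _ _ _ hfs q hq => ?_⟩
      have hreg : Function.Injective (LinearMap.lsmul A (A ⧸ r) f) := by
        rw [injective_iff_map_eq_zero]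
        intro y hy
        obtain ⟨b, rfl⟩ := Ideal.Quotient.mk_surjective y
        have h1 : Ideal.Quotient.mk r (f * b) = 0 := by
          rw [map_mul]
          exact hy
        rw [Ideal.Quotient.eq_zero_iff_mem] at h1 ⊢
        exact (hr.mem_or_mem h1).resolve_left hf
      have hreg' : IsSMulRegular (L ⊗[A] (A ⧸ r)) (algebraMap A L f) := by
        have h1 : Function.Injective (LinearMap.lTensor L (LinearMap.lsmul A (A ⧸ r) f)) :=
          Module.Flat.lTensor_preserves_injective_linearMap _ hreg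
        have h2 : LinearMap.lTensor L (LinearMap.lsmul A (A ⧸ r) f) =
            LinearMap.lsmul A (L ⊗[A] (A ⧸ r)) f := by
          ext l m
          simp
        rw [h2] at h1
        intro x y hxy
        apply h1
        simp only [algebraMap_smul] at hxy
        exact hxy
      obtain ⟨q', hq', hqq', hfq'⟩ := exists_ass_quot_module (L ⊗[A] (A ⧸ r))
        (hfs f List.mem_cons_self) hreg' hq
      have e : QuotSMulTop (algebraMap A L f) (L ⊗[A] (A ⧸ r)) ≃ₗ[L]
          L ⊗[A] QuotSMulTop f (A ⧸ r) :=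
        QuotSMulTop.algebraMapTensorEquivTensorQuotSMulTop f (A ⧸ r) L
      obtain ⟨r', hr', h1⟩ := h₀ L q' (e.isAssociatedPrime_iff.mp hq')
      obtain ⟨P, hP, hqP, hfP, hPS⟩ := hT' r' (hp₀ r' hr') L
        (fun g hg => hfs g (List.mem_cons_of_mem _ hg)) q' h1
      refine ⟨P, hP, hqq'.trans hqP, ?_, Set.mem_biUnion hr' hPS⟩
      intro g hg
      rcases List.mem_cons.1 hg with rfl | hg
      · exact hqP hfq'
      · exact hfP g hg

/-- P5. Finitely many primes of the base suffice, for a list of elements. -/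
theorem exists_finite_primes_list (A : Type u) [CommRing A] [IsNoetherianRing A] (fs : List A) :
    ∃ S : Set (Ideal A), S.Finite ∧ ∀ (L : Type w) [CommRing L] [Algebra A L] [Module.Flat A L]
      [IsNoetherianRing L] [IsLocalRing L], (∀ f ∈ fs, algebraMap A L f ∈ maximalIdeal L) →
      ∀ q ∈ minimalPrimes L, ∃ P : Ideal L, P.IsPrime ∧ q ≤ P ∧
        (∀ f ∈ fs, algebraMap A L f ∈ P) ∧ P.comap (algebraMap A L) ∈ S := by
  obtain ⟨S₀, hS₀, hp₀, h₀⟩ := exists_finite_ass.{u, u, w} A A
  choose! T hT hT' using exists_finite_primes_aux.{u, w} A fs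
  refine ⟨⋃ r' ∈ S₀, T r', hS₀.biUnion fun r' hr' => hT r' (hp₀ r' hr'),
    fun L _ _ _ _ _ hfs q hq => ?_⟩
  have hann : Module.annihilator L L = ⊥ := by
    rw [Submodule.eq_bot_iff]
    intro a ha
    have := Module.mem_annihilator.mp ha 1
    simpa using this
  have hass : IsAssociatedPrime q L := by
    apply Module.associatedPrimes.minimalPrimes_annihilator_subset_associatedPrimes L L
    rw [hann]
    exact hq
  have hass' : IsAssociatedPrime q (L ⊗[A] A) :=
    (TensorProduct.AlgebraTensorModule.rid A L L).symm.isAssociatedPrime_iff.mp hass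
  obtain ⟨r', hr', h1⟩ := h₀ L q hass'
  obtain ⟨P, hP, hqP, hfP, hPS⟩ := hT' r' (hp₀ r' hr') L hfs q h1
  exact ⟨P, hP, hqP, hfP, Set.mem_biUnion hr' hPS⟩

end Pool.Agent.Lib.MP_682396_ag
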